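import Pool.Agent.Helper18.BV.St
import Pool.Agent.Helper44.Mertens

/-!
# Project BV: the total mass of the weighted von Mangoldt function
-/

set_option autoImplicit false

open Finset Filter Topology
open scoped ArithmeticFunction.vonMangoldt

namespace Pool.Agent.Helper44.BV

open Pool.Agent.Helper18.BV

/-- Admissible weights are bounded. -/
theorem IsWt_bdd {g : ℝ → ℝ} (hg : IsWt g) : ∃ G : ℝ, 0 < G ∧ ∀ v, |g v| ≤ G := by
  have hcs : HasCompactSupport g :=
    isCompact_Icc.of_isClosed_subset (isClosed_tsupport g) (hg.supp.trans Set.Ioo_subset_Icc_self)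
  obtain ⟨G, hG⟩ := hg.smooth.continuous.bounded_above_of_compact_support hcs
  refine ⟨|G| + 1, by positivity, fun v => ?_⟩
  have := hG v
  rw [Real.norm_eq_abs] at this
  linarith [le_abs_self G]

theorem sum_Lambda_Ioc_le {x : ℝ} (hx : 1 ≤ x) :
    ∑ n ∈ Ioc 0 ⌊x⌋₊, Λ n / n ≤ Real.log x + 6 := by
  have h1 : 1 ≤ ⌊x⌋₊ := Nat.le_floor (by exact_mod_cast hx)
  have h2 := (abs_le.1 (abs_sum_vonMangoldt_div_sub_log_nat ⌊x⌋₊ h1)).2
  have h3 : Real.log ⌊x⌋₊ ≤ Real.log x :=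
    Real.log_le_log (by exact_mod_cast h1) (Nat.floor_le (by linarith))
  linarith

theorem le_sum_Lambda_Ioc {x : ℝ} (hx : 1 ≤ x) :
    Real.log x - 7 ≤ ∑ n ∈ Ioc 0 ⌊x⌋₊, Λ n / n := by
  have h1 : 1 ≤ ⌊x⌋₊ := Nat.le_floor (by exact_mod_cast hx)
  have h2 := (abs_le.1 (abs_sum_vonMangoldt_div_sub_log_nat ⌊x⌋₊ h1)).1
  have h4 : x / 2 ≤ ⌊x⌋₊ := by
    have h5 := Nat.lt_floor_add_one x
    have h6 : (1 : ℝ) ≤ ⌊x⌋₊ := by exact_mod_cast h1
    linarith
  have h3 : Real.log (x / 2) ≤ Real.log ⌊x⌋₊ := Real.log_le_log (by positivity) h4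
  rw [Real.log_div (by positivity) (by norm_num)] at h3
  have := Real.log_two_lt_d9
  linarith

theorem mass : Mass := by
  intro g hg ⟨v0, hv0⟩
  obtain ⟨G, hG0, hG⟩ := IsWt_bdd hg
  have hpos : 0 < g v0 := lt_of_le_of_ne (hg.nonneg v0) (Ne.symm hv0)
  have hv0mem : v0 ∈ Set.Ioo (1 / 2 : ℝ) 1 := hg.supp (subset_tsupport g hv0)
  have hev : ∀ᶠ v in 𝓝 v0, g v0 / 2 < g v ∧ v ∈ Set.Ioo (1 / 2 : ℝ) 1 :=
    ((hg.smooth.continuous.tendsto v0).eventually (lt_mem_nhds (half_lt_self hpos))).and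
      (Ioo_mem_nhds hv0mem.1 hv0mem.2)
  obtain ⟨ε, hε, hball⟩ := Metric.eventually_nhds_iff_ball.1 hev
  have hin : ∀ v, v0 - ε / 2 ≤ v → v ≤ v0 + ε / 2 →
      g v0 / 2 < g v ∧ v ∈ Set.Ioo (1 / 2 : ℝ) 1 := by
    intro v h1 h2
    apply hball
    rw [Metric.mem_ball, Real.dist_eq, abs_lt]
    constructor <;> linarith
  refine ⟨g v0 / 2 * (ε / 2), 7 * G, max 3 (Real.exp (26 / ε)), by positivity, by positivity,
    le_max_left _ _, ?_⟩
  intro x hx
  have hx3 : 3 ≤ x := (le_max_left _ _).trans hx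
  have hx0 : 0 < x := by linarith
  have hlog1 : 1 ≤ Real.log x := by
    rw [Real.le_log_iff_exp_le hx0]
    exact (Real.exp_one_lt_d9.le.trans (by norm_num)).trans hx3
  have hlogε : 26 / ε ≤ Real.log x := by
    rw [Real.le_log_iff_exp_le hx0]
    exact (le_max_right _ _).trans hx
  have hlog0 : 0 < Real.log x := by linarith
  have hterm : ∀ n : ℕ, Λ n * wt g x n = g (Real.log n / Real.log x) * (Λ n / n) := by
    intro n
    unfold wt
    ring
  constructor
  · -- lower bound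
    set a := v0 - ε / 2 with ha
    set b := v0 + ε / 2 with hb
    have ha' : a ∈ Set.Ioo (1 / 2 : ℝ) 1 := (hin a le_rfl (by linarith)).2
    have hb' : b ∈ Set.Ioo (1 / 2 : ℝ) 1 := (hin b (by linarith) le_rfl).2
    have hxa : 1 ≤ x ^ a := Real.one_le_rpow (by linarith) (by linarith [ha'.1])
    have hxb : 1 ≤ x ^ b := Real.one_le_rpow (by linarith) (by linarith [hb'.1])
    have hAB : ⌊x ^ a⌋₊ ≤ ⌊x ^ b⌋₊ :=
      Nat.floor_le_floor (Real.rpow_le_rpow_of_exponent_le (by linarith) (by linarith))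
    have hBx : ⌊x ^ b⌋₊ ≤ ⌊x⌋₊ := by
      apply Nat.floor_le_floor
      calc x ^ b ≤ x ^ (1 : ℝ) := Real.rpow_le_rpow_of_exponent_le (by linarith) hb'.2.le
        _ = x := Real.rpow_one x
    have h1 : ∑ n ∈ Ioc ⌊x ^ a⌋₊ ⌊x ^ b⌋₊, g v0 / 2 * (Λ n / n) ≤
        ∑ n ∈ Icc 1 ⌊x⌋₊, Λ n * wt g x n := by
      calc ∑ n ∈ Ioc ⌊x ^ a⌋₊ ⌊x ^ b⌋₊, g v0 / 2 * (Λ n / n)
          ≤ ∑ n ∈ Ioc ⌊x ^ a⌋₊ ⌊x ^ b⌋₊, Λ n * wt g x n := by
            apply Finset.sum_le_sum
            intro n hn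
            rw [hterm n]
            have hn1 := (Finset.mem_Ioc.1 hn).1
            have hn2 := (Finset.mem_Ioc.1 hn).2
            have hna : x ^ a < n := (Nat.floor_lt (by positivity)).1 hn1
            have hnb : (n : ℝ) ≤ x ^ b := (Nat.le_floor_iff (by positivity)).1 hn2
            have hn0 : (0 : ℝ) < n := by linarith
            have hla : a ≤ Real.log n / Real.log x := by
              rw [le_div_iff₀ hlog0, ← Real.log_rpow hx0]
              exact Real.log_le_log (by positivity) hna.le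
            have hlb : Real.log n / Real.log x ≤ b := by
              rw [div_le_iff₀ hlog0, ← Real.log_rpow hx0]
              exact Real.log_le_log hn0 hnb
            have hΛ : 0 ≤ Λ n / n := div_nonneg ArithmeticFunction.vonMangoldt_nonneg hn0.le
            exact mul_le_mul_of_nonneg_right (hin _ hla hlb).1.le hΛ
        _ ≤ ∑ n ∈ Icc 1 ⌊x⌋₊, Λ n * wt g x n := by
            apply Finset.sum_le_sum_of_subset_of_nonneg
            · intro n hn
              rw [Finset.mem_Ioc] at hn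
              rw [Finset.mem_Icc]
              omega
            · intro n _ _
              rw [hterm n]
              exact mul_nonneg (hg.nonneg _)
                (div_nonneg ArithmeticFunction.vonMangoldt_nonneg (Nat.cast_nonneg n))
    have h2 : ∑ n ∈ Ioc ⌊x ^ a⌋₊ ⌊x ^ b⌋₊, Λ n / n =
        ∑ n ∈ Ioc 0 ⌊x ^ b⌋₊, Λ n / n - ∑ n ∈ Ioc 0 ⌊x ^ a⌋₊, Λ n / n := by
      rw [eq_sub_iff_add_eq, add_comm]
      have hd : Disjoint (Ioc 0 ⌊x ^ a⌋₊) (Ioc ⌊x ^ a⌋₊ ⌊x ^ b⌋₊) := by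
        rw [Finset.disjoint_left]
        intro n h h'
        rw [Finset.mem_Ioc] at h h'
        omega
      rw [← Finset.sum_union hd, Finset.Ioc_union_Ioc_eq_Ioc (Nat.zero_le _) hAB]
    have h3 := sum_Lambda_Ioc_le hxa
    have h4 := le_sum_Lambda_Ioc hxb
    rw [Real.log_rpow hx0] at h3 h4
    rw [← Finset.mul_sum, h2] at h1
    refine le_trans ?_ h1
    rw [mul_assoc]
    apply mul_le_mul_of_nonneg_left _ (by positivity)
    have h5 : 26 ≤ ε * Real.log x := by
      rw [div_le_iff₀ hε] at hlogε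
      linarith
    have h6 : b * Real.log x - a * Real.log x = ε * Real.log x := by
      rw [ha, hb]; ring
    linarith
  · -- upper bound
    calc ∑ n ∈ Icc 1 ⌊x⌋₊, Λ n * wt g x n ≤ ∑ n ∈ Icc 1 ⌊x⌋₊, G * (Λ n / n) := by
          apply Finset.sum_le_sum
          intro n _
          rw [hterm n]
          exact mul_le_mul_of_nonneg_right ((le_abs_self _).trans (hG _))
            (div_nonneg ArithmeticFunction.vonMangoldt_nonneg (Nat.cast_nonneg n))
      _ = G * ∑ n ∈ Ioc 0 ⌊x⌋₊, Λ n / n := by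
          rw [Finset.mul_sum]
          apply Finset.sum_congr _ fun _ _ => rfl
          ext n
          rw [Finset.mem_Icc, Finset.mem_Ioc]
          omega
      _ ≤ G * (Real.log x + 6) := by
          gcongr
          exact sum_Lambda_Ioc_le (by linarith)
      _ ≤ 7 * G * Real.log x := by nlinarith

end Pool.Agent.Helper44.BV
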