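import Pool.Agent.Helper18.BV.St
import Pool.Agent.Helper44.BV.Mass

/-!
# Project BV: Type I sums
-/

set_option autoImplicit false

open Finset Filter Topology
open scoped ArithmeticFunction.vonMangoldt ArithmeticFunction.Moebius ArithmeticFunction.zeta

namespace Pool.Agent.Helper44.BV

open Pool.Agent.Helper18.BV

/-! ### Character sums -/

theorem sum_period {q : ℕ} [NeZero q] {χ : DirichletCharacter ℂ q} (hχ : χ ≠ 1) :
    ∑ i ∈ range q, χ ((i + 1 : ℕ) : ZMod q) = 0 := by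
  obtain ⟨n, rfl⟩ := Nat.exists_eq_succ_of_ne_zero (NeZero.ne q)
  rw [Finset.sum_range]
  have h : ∀ i : Fin (n + 1), χ (((i : ℕ) + 1 : ℕ) : ZMod (n + 1)) =
      χ ((show ZMod (n + 1) from i) + 1) := by
    intro i
    have hi : (((i : ℕ) : ℕ) : ZMod (n + 1)) = (show ZMod (n + 1) from i) :=
      Fin.cast_val_eq_self i
    rw [Nat.cast_add, Nat.cast_one, hi]
  rw [Finset.sum_congr rfl fun i _ => h i]
  have h2 : ∑ a : ZMod (n + 1), χ (a + 1) = ∑ a : ZMod (n + 1), χ a :=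
    Equiv.sum_comp (Equiv.addRight (1 : ZMod (n + 1))) fun a => χ a
  have h3 : ∑ a : ZMod (n + 1), χ a = 0 := MulChar.sum_eq_zero_of_ne_one hχ
  rw [h3] at h2
  exact h2

theorem norm_partial_sum {q : ℕ} [NeZero q] {χ : DirichletCharacter ℂ q} (hχ : χ ≠ 1) (k : ℕ) :
    ‖∑ i ∈ range k, χ ((i + 1 : ℕ) : ZMod q)‖ ≤ q := by
  induction k using Nat.strong_induction_on with
  | _ k ih =>
    by_cases hk : k < q
    · calc ‖∑ i ∈ range k, χ ((i + 1 : ℕ) : ZMod q)‖ ≤ ∑ i ∈ range k, (1 : ℝ) :=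
            norm_sum_le_of_le _ fun i _ => χ.norm_le_one _
        _ = k := by simp
        _ ≤ q := by exact_mod_cast hk.le
    · push Not at hk
      have hq : 0 < q := Nat.pos_of_ne_zero (NeZero.ne q)
      have h1 : ∑ i ∈ range k, χ ((i + 1 : ℕ) : ZMod q) =
          ∑ i ∈ range (k - q), χ ((i + 1 : ℕ) : ZMod q) := by
        have hk' : k = q + (k - q) := by omega
        conv_lhs => rw [hk']
        rw [Finset.sum_range_add, sum_period hχ, zero_add]
        refine Finset.sum_congr rfl fun i _ => ?_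
        congr 1
        push_cast
        rw [ZMod.natCast_self]
        ring
      rw [h1]
      exact ih (k - q) (by omega)

theorem abel_char {q : ℕ} [NeZero q] {χ : DirichletCharacter ℂ q} (hχ : χ ≠ 1) (F : ℕ → ℝ)
    (K : ℕ) (hF : F (K + 1) = 0) :
    ‖∑ k ∈ Icc 1 K, (F k : ℂ) * χ (k : ZMod q)‖ ≤ q * ∑ k ∈ Icc 1 K, |F (k + 1) - F k| := by
  have h1 : ∑ k ∈ Icc 1 K, (F k : ℂ) * χ (k : ZMod q) =
      ∑ i ∈ range (K + 1), (F (i + 1) : ℂ) • χ ((i + 1 : ℕ) : ZMod q) := by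
    rw [Finset.sum_range_succ, hF]
    simp only [Complex.ofReal_zero, zero_mul, add_zero, smul_eq_mul]
    rw [Finset.range_eq_Ico, Finset.sum_Ico_add' (fun k => (F k : ℂ) * χ (k : ZMod q)) 0 K 1]
    rfl
  rw [h1, Finset.sum_range_by_parts]
  simp only [Nat.add_sub_cancel, hF, Complex.ofReal_zero, zero_smul, zero_sub, norm_neg]
  have h2 : ∑ k ∈ Icc 1 K, |F (k + 1) - F k| = ∑ i ∈ range K, |F (i + 1 + 1) - F (i + 1)| := by
    rw [Finset.range_eq_Ico, Finset.sum_Ico_add' (fun k => |F (k + 1) - F k|) 0 K 1]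
    rfl
  rw [h2, Finset.mul_sum]
  refine norm_sum_le_of_le _ fun i _ => ?_
  rw [norm_smul, ← Complex.ofReal_sub, Complex.norm_real, Real.norm_eq_abs, mul_comm]
  exact mul_le_mul_of_nonneg_right (norm_partial_sum hχ _) (abs_nonneg _)

/-! ### Inverse squares -/

theorem sum_inv_sq (y : ℝ) (hy : 0 < y) (K : ℕ) :
    ∑ k ∈ (Icc 1 K).filter (fun k : ℕ => y < k + 1), ((k : ℝ) ^ 2)⁻¹ ≤ 4 / y := by
  rcases Nat.eq_zero_or_pos ⌊y⌋₊ with h | h
  · have hy1 : y < 1 := by
      have := Nat.lt_floor_add_one y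
      rw [h] at this
      simpa using this
    calc ∑ k ∈ (Icc 1 K).filter (fun k : ℕ => y < k + 1), ((k : ℝ) ^ 2)⁻¹
        ≤ ∑ k ∈ Ioo 0 (K + 1), ((k : ℝ) ^ 2)⁻¹ := by
          apply Finset.sum_le_sum_of_subset_of_nonneg
          · intro k hk
            rw [Finset.mem_filter, Finset.mem_Icc] at hk
            rw [Finset.mem_Ioo]
            omega
          · intro k _ _
            positivity
      _ ≤ 2 / ((0 : ℕ) + 1) := sum_Ioo_inv_sq_le 0 (K + 1)
      _ = 2 := by norm_num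
      _ ≤ 4 / y := by
          rw [le_div_iff₀ hy]
          linarith
  · have hy1 := Nat.lt_floor_add_one y
    have hfl := Nat.floor_le hy.le
    have hf1 : (1 : ℝ) ≤ ⌊y⌋₊ := by exact_mod_cast h
    calc ∑ k ∈ (Icc 1 K).filter (fun k : ℕ => y < k + 1), ((k : ℝ) ^ 2)⁻¹
        ≤ ∑ k ∈ Ioo (⌊y⌋₊ - 1) (K + 1), ((k : ℝ) ^ 2)⁻¹ := by
          apply Finset.sum_le_sum_of_subset_of_nonneg
          · intro k hk
            rw [Finset.mem_filter, Finset.mem_Icc] at hk
            rw [Finset.mem_Ioo]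
            have h3 : ((⌊y⌋₊ : ℕ) : ℝ) < ((k + 1 : ℕ) : ℝ) := by
              push_cast
              linarith [hk.2]
            have h4 : ⌊y⌋₊ < k + 1 := by exact_mod_cast h3
            omega
          · intro k _ _
            positivity
      _ ≤ 2 / ((⌊y⌋₊ - 1 : ℕ) + 1) := sum_Ioo_inv_sq_le _ _
      _ = 2 / ⌊y⌋₊ := by
          rw [Nat.cast_sub h, Nat.cast_one, sub_add_cancel]
      _ ≤ 4 / y := by
          rw [div_le_div_iff₀ (by linarith) hy]
          linarith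

/-! ### Weights -/

theorem IsWt_lip {g : ℝ → ℝ} (hg : IsWt g) : ∃ L : ℝ, 0 < L ∧ ∀ u v, |g u - g v| ≤ L * |u - v| := by
  have hcs : HasCompactSupport g :=
    isCompact_Icc.of_isClosed_subset (isClosed_tsupport g) (hg.supp.trans Set.Ioo_subset_Icc_self)
  have hd : Continuous (deriv g) := hg.smooth.continuous_deriv (by simp)
  obtain ⟨L, hL⟩ := hd.bounded_above_of_compact_support hcs.deriv
  have hdiff : Differentiable ℝ g := hg.smooth.differentiable (by simp)
  refine ⟨|L| + 1, by positivity, fun u v => ?_⟩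
  have h := Convex.norm_image_sub_le_of_norm_deriv_le (f := g) (s := Set.univ) (C := |L| + 1)
    (fun t _ => hdiff t) (fun t _ => (hL t).trans (by linarith [le_abs_self L])) convex_univ
    (Set.mem_univ v) (Set.mem_univ u)
  rw [Real.norm_eq_abs, Real.norm_eq_abs] at h
  exact h

theorem IsWt_zero_le {g : ℝ → ℝ} (hg : IsWt g) {v : ℝ} (hv : v ≤ 1 / 2) : g v = 0 := by
  by_contra h
  have := hg.supp (subset_tsupport g h)
  linarith [this.1]

theorem IsWt_zero_ge {g : ℝ → ℝ} (hg : IsWt g) {v : ℝ} (hv : 1 ≤ v) : g v = 0 := by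
  by_contra h
  have := hg.supp (subset_tsupport g h)
  linarith [this.2]

/-- The function whose variation is estimated. -/
noncomputable def FF (A : ℕ → ℝ) (g : ℝ → ℝ) (x : ℝ) (m k : ℕ) : ℝ :=
  A k * g (Real.log ((m * k : ℕ) : ℝ) / Real.log x) / k

section Var

variable {A : ℕ → ℝ} {g : ℝ → ℝ} {G L x : ℝ} {m : ℕ}

theorem FF_zero_of_ge (hg : IsWt g) (hx : 3 ≤ x) {k : ℕ} (hk : x ≤ ((m * k : ℕ) : ℝ)) :
    FF A g x m k = 0 := by
  unfold FF
  have hlog0 : 0 < Real.log x := Real.log_pos (by linarith)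
  rw [IsWt_zero_ge hg]
  · simp
  · rw [le_div_iff₀ hlog0, one_mul]
    exact Real.log_le_log (by linarith) hk

theorem FF_zero_of_le (hg : IsWt g) (hx : 3 ≤ x) (hm : 1 ≤ m) {k : ℕ} (hk1 : 1 ≤ k)
    (hk : ((m * k : ℕ) : ℝ) ≤ x ^ (1 / 2 : ℝ)) : FF A g x m k = 0 := by
  unfold FF
  have hlog0 : 0 < Real.log x := Real.log_pos (by linarith)
  rw [IsWt_zero_le hg]
  · simp
  · rw [div_le_iff₀ hlog0, ← Real.log_rpow (by linarith)]
    have : 1 ≤ m * k := Nat.mul_pos hm hk1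
    exact Real.log_le_log (by exact_mod_cast this) hk

theorem FF_var_le (hG : ∀ v, |g v| ≤ G) (hG0 : 0 < G) (hL0 : 0 < L)
    (hL : ∀ u v, |g u - g v| ≤ L * |u - v|) (hx : 3 ≤ x) (hm : 1 ≤ m) {k : ℕ} (hk1 : 1 ≤ k)
    (hA : |A k| ≤ Real.log x) (hA' : |A (k + 1) - A k| ≤ 1 / k) :
    |FF A g x m (k + 1) - FF A g x m k| ≤ (2 * G + L) * Real.log x * ((k : ℝ) ^ 2)⁻¹ := by
  have hlog1 : 1 ≤ Real.log x := by
    rw [Real.le_log_iff_exp_le (by linarith)]
    exact (Real.exp_one_lt_d9.le.trans (by norm_num)).trans hx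
  have hlog0 : 0 < Real.log x := by linarith
  have hk0 : (1 : ℝ) ≤ k := by exact_mod_cast hk1
  have hm0 : (1 : ℝ) ≤ m := by exact_mod_cast hm
  set B := g (Real.log ((m * k : ℕ) : ℝ) / Real.log x) with hB
  set B' := g (Real.log ((m * (k + 1) : ℕ) : ℝ) / Real.log x) with hB'
  have hBB : |B' - B| ≤ L / k := by
    refine (hL _ _).trans ?_
    rw [← sub_div, abs_div, abs_of_pos hlog0]
    have h1 : Real.log ((m * (k + 1) : ℕ) : ℝ) - Real.log ((m * k : ℕ) : ℝ) =
        Real.log (1 + 1 / k) := by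
      rw [← Real.log_div (by positivity) (by positivity)]
      congr 1
      push_cast
      field_simp
    rw [h1]
    have h2 : 0 ≤ Real.log (1 + 1 / (k : ℝ)) := Real.log_nonneg (by
      have : 0 < 1 / (k : ℝ) := by positivity
      linarith)
    have h3 : Real.log (1 + 1 / (k : ℝ)) ≤ 1 / k := by
      have := Real.log_le_sub_one_of_pos (show 0 < 1 + 1 / (k : ℝ) by positivity)
      linarith
    rw [abs_of_nonneg h2, div_eq_mul_one_div L]
    apply mul_le_mul_of_nonneg_left _ hL0.le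
    rw [div_le_iff₀ hlog0]
    calc Real.log (1 + 1 / (k : ℝ)) ≤ 1 / k := h3
      _ ≤ 1 / k * Real.log x := le_mul_of_one_le_right (by positivity) hlog1
  have hid : FF A g x m (k + 1) - FF A g x m k =
      (A (k + 1) - A k) * B' * (1 / ((k : ℝ) + 1)) + A k * (B' - B) * (1 / ((k : ℝ) + 1)) +
        A k * B * (1 / ((k : ℝ) + 1) - 1 / k) := by
    unfold FF
    rw [← hB, ← hB']
    push_cast
    ring
  have hk2 : 1 / ((k : ℝ) + 1) ≤ 1 / k := one_div_le_one_div_of_le (by linarith) (by linarith)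
  have hk3 : |1 / ((k : ℝ) + 1) - 1 / k| ≤ 1 / k * (1 / k) := by
    have : 1 / ((k : ℝ) + 1) - 1 / k = -(1 / k * (1 / (k + 1))) := by
      field_simp
      ring
    rw [this, abs_neg, abs_of_nonneg (by positivity)]
    exact mul_le_mul_of_nonneg_left hk2 (by positivity)
  have hk4 : |1 / ((k : ℝ) + 1)| ≤ 1 / k := by
    rw [abs_of_nonneg (by positivity)]
    exact hk2
  have hlogk : 0 ≤ 1 / (k : ℝ) := by positivity
  rw [hid]
  have t1 : |(A (k + 1) - A k) * B' * (1 / ((k : ℝ) + 1))| ≤ 1 / k * G * (1 / k) := by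
    rw [abs_mul, abs_mul]
    gcongr
    exact hG _
  have t2 : |A k * (B' - B) * (1 / ((k : ℝ) + 1))| ≤ Real.log x * (L / k) * (1 / k) := by
    rw [abs_mul, abs_mul]
    gcongr
  have t3 : |A k * B * (1 / ((k : ℝ) + 1) - 1 / k)| ≤ Real.log x * G * (1 / k * (1 / k)) := by
    rw [abs_mul, abs_mul]
    gcongr
    exact hG _
  have h5 := abs_add_three ((A (k + 1) - A k) * B' * (1 / ((k : ℝ) + 1)))
    (A k * (B' - B) * (1 / ((k : ℝ) + 1))) (A k * B * (1 / ((k : ℝ) + 1) - 1 / k))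
  refine h5.trans ?_
  have h6 : 1 / k * G * (1 / k) ≤ Real.log x * G * (1 / k * (1 / (k : ℝ))) := by
    have : 1 / k * G * (1 / k) = 1 * G * (1 / k * (1 / (k : ℝ))) := by ring
    rw [this]
    gcongr
  have h7 : (2 * G + L) * Real.log x * ((k : ℝ) ^ 2)⁻¹ = Real.log x * G * (1 / k * (1 / (k : ℝ))) +
      Real.log x * (L / k) * (1 / k) + Real.log x * G * (1 / k * (1 / (k : ℝ))) := by
    field_simp
    ring
  rw [h7]
  linarith

theorem FF_total_var (hg : IsWt g) (hG : ∀ v, |g v| ≤ G) (hG0 : 0 < G) (hL0 : 0 < L)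
    (hL : ∀ u v, |g u - g v| ≤ L * |u - v|) (hx : 3 ≤ x) (hm : 1 ≤ m) (K : ℕ)
    (hA : ∀ k ∈ Icc 1 K, |A k| ≤ Real.log x)
    (hA' : ∀ k ∈ Icc 1 K, |A (k + 1) - A k| ≤ 1 / k) :
    ∑ k ∈ Icc 1 K, |FF A g x m (k + 1) - FF A g x m k| ≤
      (2 * G + L) * Real.log x * (4 * m * x ^ (-(1 / 2) : ℝ)) := by
  have hx0 : 0 < x := by linarith
  have hlog0 : 0 < Real.log x := Real.log_pos (by linarith)
  have hm0 : (0 : ℝ) < m := by exact_mod_cast hm
  set y : ℝ := x ^ (1 / 2 : ℝ) / m with hy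
  have hy0 : 0 < y := by positivity
  have h1 : ∑ k ∈ Icc 1 K, |FF A g x m (k + 1) - FF A g x m k| =
      ∑ k ∈ (Icc 1 K).filter (fun k : ℕ => y < k + 1), |FF A g x m (k + 1) - FF A g x m k| := by
    symm
    apply Finset.sum_filter_of_ne
    intro k hk hne
    by_contra hcon
    push Not at hcon
    apply hne
    have hk1 := (Finset.mem_Icc.1 hk).1
    have h2 : ((m * (k + 1) : ℕ) : ℝ) ≤ x ^ (1 / 2 : ℝ) := by
      rw [hy, le_div_iff₀ hm0] at hcon
      push_cast
      linarith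
    have h3 : ((m * k : ℕ) : ℝ) ≤ x ^ (1 / 2 : ℝ) := by
      refine le_trans ?_ h2
      exact_mod_cast Nat.mul_le_mul_left m (Nat.le_succ k)
    rw [FF_zero_of_le hg hx hm (by omega) h2, FF_zero_of_le hg hx hm hk1 h3]
    simp
  rw [h1]
  calc ∑ k ∈ (Icc 1 K).filter (fun k : ℕ => y < k + 1), |FF A g x m (k + 1) - FF A g x m k|
      ≤ ∑ k ∈ (Icc 1 K).filter (fun k : ℕ => y < k + 1),
          (2 * G + L) * Real.log x * ((k : ℝ) ^ 2)⁻¹ := by
        apply Finset.sum_le_sum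
        intro k hk
        have hk' := (Finset.mem_filter.1 hk).1
        exact FF_var_le hG hG0 hL0 hL hx hm (Finset.mem_Icc.1 hk').1 (hA k hk') (hA' k hk')
    _ = (2 * G + L) * Real.log x *
          ∑ k ∈ (Icc 1 K).filter (fun k : ℕ => y < k + 1), ((k : ℝ) ^ 2)⁻¹ := by
        rw [Finset.mul_sum]
    _ ≤ (2 * G + L) * Real.log x * (4 / y) := by
        gcongr
        exact sum_inv_sq y hy0 K
    _ = (2 * G + L) * Real.log x * (4 * m * x ^ (-(1 / 2) : ℝ)) := by
        rw [hy, Real.rpow_neg hx0.le]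
        field_simp

end Var

/-! ### Double sums -/

theorem sum_antidiagonal (F : ℕ → ℕ → ℂ) (N : ℕ) :
    ∑ n ∈ Icc 1 N, ∑ p ∈ n.divisorsAntidiagonal, F p.1 p.2 =
      ∑ m ∈ Icc 1 N, ∑ k ∈ Icc 1 (N / m), F m k := by
  have h1 : ∑ n ∈ Icc 1 N, ∑ p ∈ n.divisorsAntidiagonal, F p.1 p.2 =
      ∑ n ∈ Icc 1 N, ∑ p ∈ (Icc 1 N ×ˢ Icc 1 N).filter (fun p => p.1 * p.2 = n), F p.1 p.2 := by
    refine Finset.sum_congr rfl fun n hn => ?_
    refine Finset.sum_congr ?_ fun _ _ => rfl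
    ext ⟨a, b⟩
    rw [Finset.mem_Icc] at hn
    simp only [Nat.mem_divisorsAntidiagonal, Finset.mem_filter, Finset.mem_product,
      Finset.mem_Icc]
    constructor
    · rintro ⟨h, h0⟩
      have ha : 0 < a := Nat.pos_of_ne_zero (by rintro rfl; simp at h; omega)
      have hb : 0 < b := Nat.pos_of_ne_zero (by rintro rfl; simp at h; omega)
      have hab : a ≤ a * b := Nat.le_mul_of_pos_right a hb
      have hba : b ≤ a * b := Nat.le_mul_of_pos_left b ha
      exact ⟨⟨⟨ha, by omega⟩, ⟨hb, by omega⟩⟩, h⟩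
    · rintro ⟨-, h⟩
      exact ⟨h, by omega⟩
  rw [h1]
  simp_rw [Finset.sum_filter]
  rw [Finset.sum_comm, Finset.sum_product]
  refine Finset.sum_congr rfl fun m hm => ?_
  rw [Finset.mem_Icc] at hm
  have h2 : ∀ k, (∑ n ∈ Icc 1 N, if m * k = n then F m k else 0) =
      if m * k ∈ Icc 1 N then F m k else 0 := by
    intro k
    rw [Finset.sum_ite_eq]
  simp only
  rw [Finset.sum_congr rfl fun k _ => h2 k, ← Finset.sum_filter]
  refine Finset.sum_congr ?_ fun _ _ => rfl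
  ext k
  simp only [Finset.mem_filter, Finset.mem_Icc]
  constructor
  · rintro ⟨⟨hk1, -⟩, -, h⟩
    exact ⟨hk1, (Nat.le_div_iff_mul_le (by omega)).2 (by rw [mul_comm]; exact h)⟩
  · rintro ⟨hk1, hk⟩
    have h3 : m * k ≤ N := by
      have := (Nat.le_div_iff_mul_le (by omega : 0 < m)).1 hk
      rw [mul_comm]; exact this
    have h4 : 1 ≤ m * k := Nat.mul_pos hm.1 hk1
    exact ⟨⟨hk1, (hk.trans (Nat.div_le_self N m))⟩, h4, h3⟩

/-- The general estimate. -/
theorem typeOne_aux {g : ℝ → ℝ} (hg : IsWt g) {G L : ℝ} (hG : ∀ v, |g v| ≤ G) (hG0 : 0 < G)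
    (hL0 : 0 < L) (hL : ∀ u v, |g u - g v| ≤ L * |u - v|) {x : ℝ} (hx : 3 ≤ x) {q : ℕ} [NeZero q]
    {χ : DirichletCharacter ℂ q} (hχ : χ ≠ 1) (M : ℕ) (c z : ArithmeticFunction ℂ) (Kc : ℝ)
    (hc : ∀ m ≤ M, ‖c m‖ ≤ Kc) (hc0 : ∀ m, M < m → c m = 0) (A : ℕ → ℝ)
    (hz : ∀ k : ℕ, 1 ≤ k → z k = (A k : ℂ))
    (hA : ∀ k : ℕ, 1 ≤ k → (k : ℝ) ≤ x → |A k| ≤ Real.log x)
    (hA' : ∀ k : ℕ, 1 ≤ k → |A (k + 1) - A k| ≤ 1 / k) :
    ‖SS (c * z : ArithmeticFunction ℂ) g x χ‖ ≤
      (4 * (2 * G + L)) * q * M * Kc * Real.log x * x ^ (-(1 / 2) : ℝ) := by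
  have hx0 : 0 < x := by linarith
  have hlog0 : 0 < Real.log x := Real.log_pos (by linarith)
  set N := ⌊x⌋₊ with hN
  have hNx : (N : ℝ) ≤ x := Nat.floor_le hx0.le
  have hxN : x < N + 1 := Nat.lt_floor_add_one x
  have hKc : 0 ≤ Kc := (norm_nonneg _).trans (hc 0 (Nat.zero_le _))
  have h1 : SS (c * z : ArithmeticFunction ℂ) g x χ =
      ∑ m ∈ Icc 1 N, c m * χ (m : ZMod q) / m *
        ∑ k ∈ Icc 1 (N / m), (FF A g x m k : ℂ) * χ (k : ZMod q) := by
    unfold SS
    rw [← hN]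
    have h2 : ∀ n ∈ Icc 1 N, (c * z : ArithmeticFunction ℂ) n * χ (n : ZMod q) *
        ((wt g x n : ℝ) : ℂ) = ∑ p ∈ n.divisorsAntidiagonal,
          c p.1 * z p.2 * χ ((p.1 * p.2 : ℕ) : ZMod q) * ((wt g x (p.1 * p.2) : ℝ) : ℂ) := by
      intro n _
      rw [ArithmeticFunction.mul_apply, Finset.sum_mul, Finset.sum_mul]
      refine Finset.sum_congr rfl fun p hp => ?_
      rw [(Nat.mem_divisorsAntidiagonal.1 hp).1]
    rw [Finset.sum_congr rfl h2, sum_antidiagonal
      (fun a b => c a * z b * χ ((a * b : ℕ) : ZMod q) * ((wt g x (a * b) : ℝ) : ℂ))]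
    refine Finset.sum_congr rfl fun m hm => ?_
    rw [Finset.mul_sum]
    refine Finset.sum_congr rfl fun k hk => ?_
    rw [hz k (Finset.mem_Icc.1 hk).1]
    unfold wt FF
    rw [Nat.cast_mul (α := ZMod q), map_mul]
    push_cast
    ring
  rw [h1]
  calc ‖∑ m ∈ Icc 1 N, c m * χ (m : ZMod q) / m *
        ∑ k ∈ Icc 1 (N / m), (FF A g x m k : ℂ) * χ (k : ZMod q)‖
      ≤ ∑ m ∈ Icc 1 N, ‖c m‖ * (4 * (2 * G + L) * q * Real.log x * x ^ (-(1 / 2) : ℝ)) := by
        refine norm_sum_le_of_le _ fun m hm => ?_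
        rw [Finset.mem_Icc] at hm
        have hm0 : (0 : ℝ) < m := by exact_mod_cast hm.1
        rw [norm_mul, norm_div, norm_mul, Complex.norm_natCast]
        have h3 : FF A g x m (N / m + 1) = 0 := by
          apply FF_zero_of_ge hg hx
          have h4 : N + 1 ≤ m * (N / m + 1) := by
            have := Nat.lt_mul_div_succ N (by omega : 0 < m)
            simpa using this
          have h5 : ((N + 1 : ℕ) : ℝ) ≤ ((m * (N / m + 1) : ℕ) : ℝ) := by exact_mod_cast h4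
          push_cast at h5 ⊢
          linarith
        have h6 := abel_char hχ (FF A g x m) (N / m) h3
        have h7 := FF_total_var (A := A) (m := m) hg hG hG0 hL0 hL hx hm.1 (N / m)
          (fun k hk => hA k (Finset.mem_Icc.1 hk).1 (le_trans (by
            exact_mod_cast (Finset.mem_Icc.1 hk).2.trans (Nat.div_le_self N m)) hNx))
          (fun k hk => hA' k (Finset.mem_Icc.1 hk).1)
        have h8 : ‖∑ k ∈ Icc 1 (N / m), (FF A g x m k : ℂ) * χ (k : ZMod q)‖ ≤
            q * ((2 * G + L) * Real.log x * (4 * m * x ^ (-(1 / 2) : ℝ))) :=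
          h6.trans (mul_le_mul_of_nonneg_left h7 (Nat.cast_nonneg q))
        have h9 : ‖χ (m : ZMod q)‖ ≤ 1 := χ.norm_le_one _
        calc ‖c m‖ * ‖χ (m : ZMod q)‖ / m *
              ‖∑ k ∈ Icc 1 (N / m), (FF A g x m k : ℂ) * χ (k : ZMod q)‖
            ≤ ‖c m‖ * 1 / m * (q * ((2 * G + L) * Real.log x * (4 * m * x ^ (-(1 / 2) : ℝ)))) := by
              gcongr
          _ = ‖c m‖ * (4 * (2 * G + L) * q * Real.log x * x ^ (-(1 / 2) : ℝ)) := by
              field_simp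
    _ = (∑ m ∈ Icc 1 N, ‖c m‖) * (4 * (2 * G + L) * q * Real.log x * x ^ (-(1 / 2) : ℝ)) := by
        rw [Finset.sum_mul]
    _ ≤ (M * Kc) * (4 * (2 * G + L) * q * Real.log x * x ^ (-(1 / 2) : ℝ)) := by
        apply mul_le_mul_of_nonneg_right _ (by positivity)
        calc ∑ m ∈ Icc 1 N, ‖c m‖ = ∑ m ∈ (Icc 1 N).filter (fun m => m ≤ M), ‖c m‖ := by
              symm
              apply Finset.sum_filter_of_ne
              intro m _ hne
              by_contra hcon
              push Not at hcon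
              apply hne
              rw [hc0 m hcon, norm_zero]
          _ ≤ ∑ m ∈ Icc 1 M, Kc := by
              refine (Finset.sum_le_sum_of_subset_of_nonneg (t := Icc 1 M) ?_ ?_).trans ?_
              · intro m hm
                rw [Finset.mem_filter, Finset.mem_Icc] at hm
                rw [Finset.mem_Icc]
                exact ⟨hm.1.1, hm.2⟩
              · intro m _ _
                exact norm_nonneg _
              · exact Finset.sum_le_sum fun m hm => hc m (Finset.mem_Icc.1 hm).2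
          _ = M * Kc := by simp
    _ = (4 * (2 * G + L)) * q * M * Kc * Real.log x * x ^ (-(1 / 2) : ℝ) := by ring

theorem typeOne : TypeOne := by
  intro g hg
  obtain ⟨G, hG0, hG⟩ := IsWt_bdd hg
  obtain ⟨L, hL0, hL⟩ := IsWt_lip hg
  refine ⟨4 * (2 * G + L), by positivity, ?_⟩
  intro x hx q _ χ hχ M c Kc hc hc0
  have hlog1 : 1 ≤ Real.log x := by
    rw [Real.le_log_iff_exp_le (by linarith)]
    exact (Real.exp_one_lt_d9.le.trans (by norm_num)).trans hx
  constructor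
  · refine typeOne_aux hg hG hG0 hL0 hL hx hχ M c zeC Kc hc hc0 (fun _ => 1) ?_ ?_ ?_
    · intro k hk
      have hk0 : k ≠ 0 := by omega
      simp [zeC, ArithmeticFunction.zeta_apply, hk0]
    · intro k _ _
      simpa using hlog1
    · intro k _
      simp
  · refine typeOne_aux hg hG hG0 hL0 hL hx hχ M c (D zeC) Kc hc hc0 (fun k => Real.log k) ?_ ?_ ?_
    · intro k hk
      have hk0 : k ≠ 0 := by omega
      rw [D_apply]
      simp [zeC, ArithmeticFunction.zeta_apply, hk0]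
    · intro k hk hkx
      have hk0 : (1 : ℝ) ≤ k := by exact_mod_cast hk
      rw [abs_of_nonneg (Real.log_nonneg hk0)]
      exact Real.log_le_log (by linarith) hkx
    · intro k hk
      have hk0 : (1 : ℝ) ≤ k := by exact_mod_cast hk
      have h1 : Real.log ((k + 1 : ℕ) : ℝ) - Real.log k = Real.log (1 + 1 / k) := by
        rw [← Real.log_div (by positivity) (by positivity)]
        congr 1
        push_cast
        field_simp
      have h2 : 0 ≤ Real.log (1 + 1 / (k : ℝ)) := Real.log_nonneg (by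
        have : 0 < 1 / (k : ℝ) := by positivity
        linarith)
      have h3 := Real.log_le_sub_one_of_pos (show 0 < 1 + 1 / (k : ℝ) by positivity)
      rw [h1, abs_of_nonneg h2]
      linarith

end Pool.Agent.Helper44.BV
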